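import Pool.Agent.Helper79.HC.Defs

/-!
# HC-8: the six prototypes are good

Everything is transported to the rational plane `ℚ × ℚ` (scaled coordinates), where the conditions
are decidable.
-/

namespace Pool.Agent.Helper79.HC

open MeasureTheory Set

namespace PG

/-- the complex number with given rational scaled coordinates -/
noncomputable def qc (p : ℚ × ℚ) : ℂ := pt (p.1 : ℝ) (p.2 : ℝ)

/-- the cross product in scaled coordinates -/
def crq (p q : ℚ × ℚ) : ℚ := p.1 * q.2 - p.2 * q.1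

/-- the control point in scaled coordinates -/
def mq (v b : Fin 6 → ℚ × ℚ) (k : Fin 6) : ℚ × ℚ :=
  (((v k).1 + (v (k + 1)).1) / 2 + (b k).1, ((v k).2 + (v (k + 1)).2) / 2 + (b k).2)

/-- difference -/
def sb (p q : ℚ × ℚ) : ℚ × ℚ := (p.1 - q.1, p.2 - q.2)

/-- opposite -/
def ng (p : ℚ × ℚ) : ℚ × ℚ := (- p.1, - p.2)

/-- the condition on the norm -/
def nrm (p : ℚ × ℚ) : Prop := |p.1| < 3 / 2 ∧ |p.1 + p.2| < 3 ∧ |p.2 - p.1| < 3

instance (p : ℚ × ℚ) : Decidable (nrm p) := by unfold nrm; infer_instance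

/-- a certificate for the incompatibility of four inequalities -/
def wcert (u : Fin 4 → ℚ × ℚ) : Prop :=
  ∃ i j m : Fin 4, 0 ≤ crq (u i) (u j) ∧ 0 ≤ crq (u j) (u m) ∧ 0 ≤ crq (u m) (u i) ∧
    0 < crq (u i) (u j) + crq (u j) (u m) + crq (u m) (u i)

instance (u : Fin 4 → ℚ × ℚ) : Decidable (wcert u) := by unfold wcert; infer_instance

/-- the conditions in scaled coordinates -/
def GoodQ (v b : Fin 6 → ℚ × ℚ) : Prop :=
  (∀ k, (v k = v (k + 1) ∧ b k = (0, 0)) ∨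
    (0 < crq (v k) (mq v b k) ∧ 0 < crq (mq v b k) (v (k + 1)) ∧ 0 < crq (v k) (v (k + 1)))) ∧
  (∀ k l, k ≠ l → wcert ![v k, ng (v (k + 1)), v l, ng (v (l + 1))]) ∧
  (∑ k, (crq (v k) (mq v b k) / 3 + crq (v k) (v (k + 1)) / 6 +
    crq (mq v b k) (v (k + 1)) / 3) = 6) ∧
  (∀ k, b k = (0, 0) → ∀ l, 0 ≤ crq (sb (v (k + 1)) (v k)) (sb (v l) (v k)) ∧
    0 ≤ crq (sb (v (k + 1)) (v k)) (sb (mq v b l) (v k))) ∧
  (∀ l, nrm (v l) ∧ nrm (mq v b l))

instance (v b : Fin 6 → ℚ × ℚ) : Decidable (GoodQ v b) := by unfold GoodQ; infer_instance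

/-- the cell with given rational coordinates -/
noncomputable def cellQ (v b : Fin 6 → ℚ × ℚ) : Cell := ⟨fun k => qc (v k), fun k => qc (b k)⟩

theorem sqrt3_pos : 0 < Real.sqrt 3 := Real.sqrt_pos.mpr (by norm_num)

theorem cr_qc (p q : ℚ × ℚ) : cr (qc p) (qc q) = Real.sqrt 3 / 4 * (crq p q : ℝ) := by
  simp only [cr, qc, pt, crq]
  push_cast
  ring

theorem qc_sub (p q : ℚ × ℚ) : qc p - qc q = qc (sb p q) := by
  apply Complex.ext
  · simp only [qc, pt, sb, Complex.sub_re]; push_cast; ring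
  · simp only [qc, pt, sb, Complex.sub_im]; push_cast; ring

theorem qc_neg (p : ℚ × ℚ) : - qc p = qc (ng p) := by
  apply Complex.ext
  · simp only [qc, pt, ng, Complex.neg_re]; push_cast; ring
  · simp only [qc, pt, ng, Complex.neg_im]; push_cast; ring

theorem qc_zero : qc (0, 0) = 0 := by
  apply Complex.ext <;> simp [qc, pt]

theorem qc_eq_zero {p : ℚ × ℚ} (h : qc p = 0) : p = (0, 0) := by
  have h1 := congrArg Complex.re h
  have h2 := congrArg Complex.im h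
  simp only [qc, pt, Complex.zero_re, Complex.zero_im] at h1 h2
  have h3 : (p.1 : ℝ) = 0 := by
    rcases mul_eq_zero.mp h1 with h | h
    · have := sqrt3_pos
      linarith
    · exact h
  have h4 : (p.2 : ℝ) = 0 := by linarith
  exact Prod.ext (by exact_mod_cast h3) (by exact_mod_cast h4)

theorem m_eq (v b : Fin 6 → ℚ × ℚ) (k : Fin 6) : (cellQ v b).m k = qc (mq v b k) := by
  have h : (2 : ℂ) = ((2 : ℝ) : ℂ) := by norm_num
  apply Complex.ext
  · simp only [Cell.m, cellQ, mid, qc, pt, mq, Complex.add_re]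
    rw [h, Complex.div_ofReal_re]
    simp only [Complex.add_re]
    push_cast
    ring
  · simp only [Cell.m, cellQ, mid, qc, pt, mq, Complex.add_im]
    rw [h, Complex.div_ofReal_im]
    simp only [Complex.add_im]
    push_cast
    ring

theorem wcert_false {u : Fin 4 → ℚ × ℚ} (hu : wcert u) (z : ℂ) (h : ∀ i, 0 < cr (qc (u i)) z) :
    False := by
  obtain ⟨i, j, m, h1, h2, h3, h4⟩ := hu
  have key : cr (qc (u j)) (qc (u m)) * cr (qc (u i)) z + cr (qc (u m)) (qc (u i)) *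
      cr (qc (u j)) z + cr (qc (u i)) (qc (u j)) * cr (qc (u m)) z = 0 := by
    simp only [cr]; ring
  rw [cr_qc, cr_qc, cr_qc] at key
  have hs := sqrt3_pos
  have k1 : (0 : ℝ) ≤ (crq (u i) (u j) : ℝ) := by exact_mod_cast h1
  have k2 : (0 : ℝ) ≤ (crq (u j) (u m) : ℝ) := by exact_mod_cast h2
  have k3 : (0 : ℝ) ≤ (crq (u m) (u i) : ℝ) := by exact_mod_cast h3
  have k4 : (0 : ℝ) < (crq (u i) (u j) : ℝ) + (crq (u j) (u m) : ℝ) + (crq (u m) (u i) : ℝ) := by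
    exact_mod_cast h4
  have z1 := mul_nonneg k2 (h i).le
  have z2 := mul_nonneg k3 (h j).le
  have z3 := mul_nonneg k1 (h m).le
  have hsum : (crq (u j) (u m) : ℝ) * cr (qc (u i)) z + (crq (u m) (u i) : ℝ) *
      cr (qc (u j)) z + (crq (u i) (u j) : ℝ) * cr (qc (u m)) z = 0 := by
    have : Real.sqrt 3 / 4 * ((crq (u j) (u m) : ℝ) * cr (qc (u i)) z + (crq (u m) (u i) : ℝ) *
      cr (qc (u j)) z + (crq (u i) (u j) : ℝ) * cr (qc (u m)) z) = 0 := by linarith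
    rcases mul_eq_zero.mp this with h | h
    · linarith
    · exact h
  have e1 : (crq (u j) (u m) : ℝ) * cr (qc (u i)) z = 0 := by linarith
  have e2 : (crq (u m) (u i) : ℝ) * cr (qc (u j)) z = 0 := by linarith
  have e3 : (crq (u i) (u j) : ℝ) * cr (qc (u m)) z = 0 := by linarith
  have f1 := (mul_eq_zero.mp e1).resolve_right (h i).ne'
  have f2 := (mul_eq_zero.mp e2).resolve_right (h j).ne'
  have f3 := (mul_eq_zero.mp e3).resolve_right (h m).ne'
  rw [f1, f2, f3] at k4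
  norm_num at k4

theorem nrm_fn3 {p : ℚ × ℚ} (hp : nrm p) (j : Fin 3) :
    |fn3 j (qc p)| < 3 * Real.sqrt 3 / 4 := by
  obtain ⟨h1, h2, h3⟩ := hp
  have hs := sqrt3_pos
  rw [abs_lt] at h1 h2 h3
  obtain ⟨a1, a2⟩ := h1
  obtain ⟨b1, b2⟩ := h2
  obtain ⟨c1, c2⟩ := h3
  have A1 : ((-(3 / 2) : ℚ) : ℝ) < (p.1 : ℝ) := Rat.cast_lt.mpr a1
  have A2 : (p.1 : ℝ) < ((3 / 2 : ℚ) : ℝ) := Rat.cast_lt.mpr a2
  push_cast at A1 A2
  have B1 : (-3 : ℝ) < (p.1 : ℝ) + (p.2 : ℝ) := by exact_mod_cast b1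
  have B2 : (p.1 : ℝ) + (p.2 : ℝ) < (3 : ℝ) := by exact_mod_cast b2
  have C1 : (-3 : ℝ) < (p.2 : ℝ) - (p.1 : ℝ) := by exact_mod_cast c1
  have C2 : (p.2 : ℝ) - (p.1 : ℝ) < (3 : ℝ) := by exact_mod_cast c2
  have g : ∀ x c : ℝ, 0 < c → -c < x → x < c → |Real.sqrt 3 * x| < Real.sqrt 3 * c := by
    intro x c _ h1 h2
    rw [abs_mul, abs_of_pos hs]
    exact mul_lt_mul_of_pos_left (abs_lt.mpr ⟨h1, h2⟩) hs
  fin_cases j
  · have e : fn3 0 (qc p) = Real.sqrt 3 * ((p.1 : ℝ) / 2) := by simp only [fn3, qc, pt]; ring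
    show |fn3 0 (qc p)| < _
    rw [e]
    refine (g _ (3 / 4) (by norm_num) (by linarith) (by linarith)).trans_le (le_of_eq (by ring))
  · have e : fn3 1 (qc p) = Real.sqrt 3 * (((p.1 : ℝ) + (p.2 : ℝ)) / 4) := by
      simp only [fn3, qc, pt]; ring
    show |fn3 1 (qc p)| < _
    rw [e]
    refine (g _ (3 / 4) (by norm_num) (by linarith) (by linarith)).trans_le (le_of_eq (by ring))
  · have e : fn3 2 (qc p) = Real.sqrt 3 * (((p.2 : ℝ) - (p.1 : ℝ)) / 4) := by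
      simp only [fn3, qc, pt]; ring
    show |fn3 2 (qc p)| < _
    rw [e]
    refine (g _ (3 / 4) (by norm_num) (by linarith) (by linarith)).trans_le (le_of_eq (by ring))

theorem good_cellQ {v b : Fin 6 → ℚ × ℚ} (h : GoodQ v b) : Good (cellQ v b) := by
  obtain ⟨h1, h2, h3, h4, h5⟩ := h
  have hs := sqrt3_pos
  have hpos : ∀ x : ℚ, 0 < x → 0 < Real.sqrt 3 / 4 * (x : ℝ) := by
    intro x hx
    have : (0 : ℝ) < (x : ℝ) := by exact_mod_cast hx
    positivity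
  have hnn : ∀ x : ℚ, 0 ≤ x → 0 ≤ Real.sqrt 3 / 4 * (x : ℝ) := by
    intro x hx
    have : (0 : ℝ) ≤ (x : ℝ) := by exact_mod_cast hx
    positivity
  have hv : ∀ k, (cellQ v b).v k = qc (v k) := fun k => rfl
  have hb : ∀ k, (cellQ v b).b k = qc (b k) := fun k => rfl
  refine ⟨?_, ?_, ?_, ?_, ?_⟩
  · intro k
    rcases h1 k with ⟨e1, e2⟩ | ⟨e1, e2, e3⟩
    · left
      rw [hv, hv, hb, ← e1, e2]
      exact ⟨rfl, qc_zero⟩
    · right
      rw [m_eq, hv, hv, cr_qc, cr_qc, cr_qc]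
      exact ⟨hpos _ e1, hpos _ e2, hpos _ e3⟩
  · intro k l hkl z hz
    obtain ⟨z1, z2, z3, z4⟩ := hz
    simp only [hv] at z1 z2 z3 z4
    have sw : ∀ x : ℂ, cr (-x) z = cr z x := by
      intro x
      simp only [cr, Complex.neg_re, Complex.neg_im]; ring
    refine wcert_false (h2 k l hkl) z ?_
    intro i
    fin_cases i
    · exact z1
    · show 0 < cr (qc (ng (v (k + 1)))) z
      rw [← qc_neg, sw]; exact z2
    · exact z3
    · show 0 < cr (qc (ng (v (l + 1)))) z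
      rw [← qc_neg, sw]; exact z4
  · simp only [m_eq, hv, cr_qc]
    have h3' : (((∑ k, (crq (v k) (mq v b k) / 3 + crq (v k) (v (k + 1)) / 6 +
      crq (mq v b k) (v (k + 1)) / 3) : ℚ)) : ℝ) = 6 := by rw [h3]; norm_num
    push_cast at h3'
    have e : A0 = Real.sqrt 3 / 4 * 6 := by unfold A0; ring
    rw [e]
    refine Eq.trans ?_ (congrArg (fun t : ℝ => Real.sqrt 3 / 4 * t) h3')
    simp only [Finset.mul_sum]
    apply Finset.sum_congr rfl
    intro k _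
    ring
  · intro k hk l
    rw [hb] at hk
    obtain ⟨e1, e2⟩ := h4 k (qc_eq_zero hk) l
    rw [m_eq, hv, hv, hv, qc_sub, qc_sub, qc_sub, cr_qc, cr_qc]
    exact ⟨hnn _ e1, hnn _ e2⟩
  · intro l j
    rw [m_eq, hv]
    exact ⟨nrm_fn3 (h5 l).1 j, nrm_fn3 (h5 l).2 j⟩

/-- the vertices of the prototypes, scaled coordinates -/
def pv : Fin 6 → Fin 6 → ℚ × ℚ :=
  ![![(1/4, -17/8), (1/4, 17/8), (1/4, 17/8), (-357/319, 6/5), (-357/319, -6/5), (1/4, -17/8)],
    ![(5/4, -7/8), (5/4, 7/8), (-38/319, 9/5), (-28/29, 9/10), (-28/29, -9/10), (-38/319, -9/5)],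
    ![(281/319, -6/5), (281/319, 6/5), (1/29, 21/10), (-1, 1), (-1, -1), (1/29, -21/10)],
    ![(30/29, -9/10), (30/29, 9/10), (0, 2), (-1, 1), (-1, -1), (0, -2)],
    ![(35/32, 29/32), (35/32, 29/32), (0, 2), (-1, 1), (-1, -1), (3/32, -67/32)],
    ![(1, -1), (1, 1), (0, 2), (-1, 1), (-1, -1), (0, -2)]]

/-- the bulges of the prototypes, scaled coordinates -/
def pb : Fin 6 → Fin 6 → ℚ × ℚ :=
  ![![(221667/216920, 0), (0, 0), (0, 0), (0, 0), (0, 0), (0, 0)],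
    ![(8013/89320, 0), (0, 0), (0, 0), (0, 0), (0, 0), (0, 0)],
    ![(0, 0), (0, 0), (0, 0), (0, 0), (0, 0), (0, 0)],
    ![(0, 0), (0, 0), (0, 0), (0, 0), (0, 0), (0, 0)],
    ![(0, 0), (0, 0), (0, 0), (0, 0), (0, 0), (15/32, -15/32)],
    ![(0, 0), (0, 0), (0, 0), (0, 0), (0, 0), (0, 0)]]

theorem goodQ_all : ∀ t : Fin 6, GoodQ (pv t) (pb t) := by
  decide +kernel

theorem cell_ext {C D : Cell} (h1 : ∀ k, C.v k = D.v k) (h2 : ∀ k, C.b k = D.b k) : C = D := by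
  cases C; cases D
  congr
  · funext k; exact h1 k
  · funext k; exact h2 k

theorem proto_eq (t : Fin 6) : proto t = cellQ (pv t) (pb t) := by
  apply cell_ext
  · intro k
    fin_cases t <;> fin_cases k <;> simp [proto, cellQ, pv, qc]
  · intro k
    fin_cases t <;> fin_cases k <;> simp [proto, cellQ, pb, qc, pt] <;> rfl

end PG

/-- HC-8 -/
theorem proto_good (t : Fin 6) : Good (proto t) := by
  rw [PG.proto_eq]
  exact PG.good_cellQ (PG.goodQ_all t)

end Pool.Agent.Helper79.HC
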